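import Pool.Agent.U85.Ml.Fq

set_option autoImplicit false

/-!
# The form factor of almost every bounded window, at all frequencies

The Riemann hypothesis is assumed (as in the question). For `t ∈ [T, 2T]` and a constant `H` let `zeros t (H/log T)` be the
set of the nontrivial zeros `ρ` of zeta with `|γ - t| ≤ H/log T`, a window which contains `H/π` zeros in the mean, and let

`F(α, t) = |∑_ρ m_ρ T^(α(ρ - 1/2))|² / (H/π) = (π/H) ∑_{γ,γ'} T^(iα(γ-γ'))`

be the form factor of the zeros of this single window. The strong pair correlation conjecture says that the mean of `F(α, t)`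
over `t` tends to `1` for `α ≥ 1`. We prove an upper bound for the averages of `F(·, t)` over ALL frequency intervals, in almost
every SINGLE window: outside a set of `t` of measure at most `εT`

`∫_c^(c+ℓ) F(α, t) dα ≤ (13/6 + ε)(ℓ + 1)` for all real `c` and all `ℓ ≥ 0` at once

(no upper bound for `|c|` or `ℓ` in terms of `T`), and the exceptional set carries at most the share `ε` of the mass of
`|B(t)|² dt` for EVERY Dirichlet polynomial `B` of length at most `T^θ`, `θ = θ(ε, H) > 0`. So no single window (outside the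
exceptional set) has a mass of its form factor concentrated at high frequencies, as it would be the case for zeros near an
arithmetic progression or for many multiple zeros: by the conjecture, the right side is too large at most by the factor `13/6`
for long intervals.

Idea: the law of large numbers for the form factor on `0 ≤ α ≤ a < 1/2` (files `Pool.Agent.U85.Ml`) gives the average of
`F(·, t)` with respect to the triangle at the origin, `a + a³/3`. The form factor is a positive definite function of `α`, so that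
its average with respect to any shifted triangle is at most as large; the triangles of half width `a` add up to a constant.
-/

namespace Pool.Agent.Results.MP_00e05b_nt.EveryFrequency

open MeasureTheory

noncomputable section

/-- the Dirichlet polynomial with the coefficients `b_1, ..., b_N` on the critical line -/
def B (N : ℕ) (b : ℕ → ℂ) (t : ℝ) : ℂ := ∑ n ∈ Finset.Icc 1 N, b n * (n : ℂ) ^ (-(1 / 2 + t * Complex.I))

/-- the mass of the polynomial on a set of heights -/
def mass (N : ℕ) (b : ℕ → ℂ) (E : Set ℝ) : ℝ := ∫ t in E, ‖B N b t‖ ^ 2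

/-- the nontrivial zeros of zeta with `|γ - t| ≤ r` -/
def zeros (t r : ℝ) : Set ℂ := {s : ℂ | riemannZeta s = 0 ∧ 0 < s.re ∧ s.re < 1 ∧ |s.im - t| ≤ r}

/-- the form factor of the zeros with `|γ - t| ≤ H/log T` -/
def F (T H α t : ℝ) : ℝ :=
  ‖∑ᶠ s ∈ zeros t (H / Real.log T), (analyticOrderNatAt riemannZeta s : ℂ) * (T : ℂ) ^ (α * (s - 1 / 2))‖ ^ 2 /
    (H / Real.pi)

/-- the points of `[T, 2T]` at which some frequency interval has too large a mass -/
def bad (T H ε : ℝ) : Set ℝ :=
  {t : ℝ | t ∈ Set.Icc T (2 * T) ∧ ∃ c ℓ : ℝ, 0 ≤ ℓ ∧ (13 / 6 + ε) * (ℓ + 1) < ∫ α in c..(c + ℓ), F T H α t}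

/-- **The form factor of almost every bounded window, at all frequencies.** -/
theorem result (hRH : RiemannHypothesis) (ε : ℝ) (hε : 0 < ε) :
    ∃ H₀ : ℝ, 1 ≤ H₀ ∧ ∀ H : ℝ, H₀ ≤ H → ∃ θ T₀ : ℝ, 0 < θ ∧ 1 ≤ T₀ ∧ ∀ T : ℝ, T₀ ≤ T →
      volume.real (bad T H ε) ≤ ε * T ∧
      ∀ N : ℕ, (N : ℝ) ≤ T ^ θ → ∀ b : ℕ → ℂ,
        mass N b (bad T H ε) ≤ ε * mass N b (Set.Icc T (2 * T)) := by
  obtain ⟨H₀, hH₀, h⟩ := Pool.Agent.U85.Ml.freq_136 hRH ε hε
  refine ⟨H₀, hH₀, fun H hH => ?_⟩
  obtain ⟨θ, T₀, hθ, hT₀, h⟩ := h H hH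
  have key : ∀ T : ℝ, T₀ ≤ T → ∀ N : ℕ, (N : ℝ) ≤ T ^ θ → ∀ b : ℕ → ℂ,
      mass N b (bad T H ε) ≤ ε * mass N b (Set.Icc T (2 * T)) := by
    intro T hT N hN b
    obtain ⟨G, -, hGs, hGi, hG⟩ := h T hT N hN b
    refine le_trans ?_ hGi
    have hVc : Continuous (fun t : ℝ => ‖B N b t‖ ^ 2) := ((Pool.Agent.U85.Zd.dp_cont N b).norm).pow 2
    refine setIntegral_mono_set (hVc.continuousOn.integrableOn_Icc.mono_set hGs)
      (Filter.Eventually.of_forall fun t => by positivity) (LE.le.eventuallyLE ?_)
    rintro t ⟨ht, c, ℓ, hℓ, hbad⟩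
    by_contra htG
    exact absurd hbad (not_lt.2 (hG t ht htG c ℓ hℓ))
  refine ⟨θ, T₀, hθ, hT₀, fun T hT => ⟨?_, fun N hN b => key T hT N hN b⟩⟩
  have hT1 : 1 ≤ T := hT₀.trans hT
  have h1 := key T hT 1 (by push_cast; exact Real.one_le_rpow hT1 hθ.le) (fun _ => 1)
  have h2 : ∀ t : ℝ, B 1 (fun _ => 1) t = 1 := Pool.Agent.U85.Zd.dp_one
  unfold mass at h1
  simp only [h2, norm_one, one_pow, integral_const, smul_eq_mul, mul_one,
    measureReal_restrict_apply_univ] at h1
  rw [Real.volume_real_Icc_of_le (by linarith), show 2 * T - T = T by ring] at h1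
  exact h1

end

end Pool.Agent.Results.MP_00e05b_nt.EveryFrequency
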