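import Pool.Agent.U252.LV.D

/-!
# A Bessel inequality for the large values and the masses of Montgomery's function

The strong pair correlation conjecture asserts `F(α, T) = 1 + o(1)` uniformly for `1 ≤ α ≤ A`. Assume
the Riemann hypothesis. It is proved that for frequencies whose differences lie in `[κ, 1 - κ]` the sum
of the squares of the values `F(α, T)` is at most `(1 + o(1)) log² T`, and the sum of the squares of
the integrals of `F` near these frequencies is at most `1 + o(1)`, uniformly in the frequencies, which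
may be arbitrarily large and depend on `T`. So `F(α, T) ≥ η log T` holds at no more than `1 / η²`
frequencies of a unit interval which are `κ` apart; two frequencies with values larger than
`(1/√2 + ε) log T` have a distance `< κ` or `> 1 - κ`. For `1 ≤ α ≤ 2 - κ` there is an explicit bound,
`F(α, T) ≤ (1 - (2 - α)⁶ / 768) log T`, and `∫ F ≤ 1 - (2 - α)⁶ / 640` over a neighbourhood of `α`.

Proof. `F` is positive definite in `α`, and so are its means with tents; the Cauchy-Schwarz inequality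
for these and Montgomery's theorem on `(-1, 1)` give the bounds for the means. Explicit bounds beyond
one come from the test vectors `∑ k (δ_{c/2 + kh} - δ_{c/2 - kh})` and `δ_0 - δ_c`: the form factor is
`|α|` near `c/2 ± kh` and not symmetric about `c/2`. `F` is the average of a nonnegative function with
the kernel `exp (-2 |y - α| log T)`, so that `F(β, T) ≥ exp (-2 |β - α| log T) F(α, T)`, and this turns
bounds for the integrals into bounds for the values.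
-/

set_option autoImplicit false

open MeasureTheory Set Filter Topology
open Complex (I)

namespace Pool.Agent.Results.MP_00e05b_nt.LargeValuesBessel

/-- the nontrivial zeros of `ζ` with ordinate in `(0, T]` -/
def zeros (T : ℝ) : Set ℂ :=
  {s : ℂ | 0 < s.re ∧ s.re < 1 ∧ 0 < s.im ∧ s.im ≤ T ∧ riemannZeta s = 0}

/-- the multiplicity of `s` as a zero of `ζ` -/
noncomputable def mult (s : ℂ) : ℕ := analyticOrderNatAt riemannZeta s

/-- `(T / 2π) log T` -/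
noncomputable def X (T : ℝ) : ℝ := T / (2 * Real.pi) * Real.log T

/-- Montgomery's function `F(α) = F(α, T)` -/
noncomputable def F (T α : ℝ) : ℂ :=
  (X T : ℂ)⁻¹ * ∑ᶠ s ∈ zeros T, ∑ᶠ s' ∈ zeros T, (mult s : ℂ) * (mult s' : ℂ) *
    ((T : ℂ) ^ (I * α * (s.im - s'.im)) * (4 / (4 + (s.im - s'.im) ^ 2)))

/-- the differences of distinct elements of `C` have absolute values in `[κ, 1 - κ]` -/
def Spread (κ : ℝ) (C : Finset ℝ) : Prop :=
  ∀ c ∈ C, ∀ c' ∈ C, c ≠ c' → κ ≤ |c - c'| ∧ |c - c'| ≤ 1 - κ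

open Pool.Agent.Y749.Rig (Fr)
open Pool.Agent.U252.LV

lemma F_eq {T : ℝ} (hT : 10 ≤ T) (α : ℝ) : F T α = (Fr T α : ℂ) :=
  Pool.Agent.Y749.Rig.P.F_eq hT α

lemma re_eq {T : ℝ} (hT : 10 ≤ T) (α : ℝ) : (F T α).re = Fr T α := by
  rw [F_eq hT, Complex.ofReal_re]

/-- **A Bessel inequality for Montgomery's function.** Assume RH.
(1) For `T ≥ 10` and all real `α, β`: `F(α)` is real and nonnegative,
`F(β) ≥ exp (-2 |β - α| log T) F(α)`, and
`(∑ yᵢ F(αᵢ))² ≤ F(0) ∑ᵢ ∑ⱼ yᵢ yⱼ F(αᵢ - αⱼ)` for all real `yᵢ`, `αᵢ`.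
(2) For all `κ, ε > 0` there are `s > 0` and `T₀` such that for all `T ≥ T₀` and all finite sets `C` of
reals whose differences have absolute values in `[κ, 1 - κ]`:
`∑_{c ∈ C} (∫_{c-s}^{c+s} F)² ≤ 1 + ε` and `∑_{c ∈ C} F(c)² ≤ (1 + ε) log² T`.
(3) For every `κ > 0` there are `s > 0` and `T₀` such that for `T ≥ T₀` and `1 ≤ α ≤ 2 - κ`:
`∫_{α-s}^{α+s} F ≤ 1 - (2 - α)⁶ / 640` and `F(α) ≤ (1 - (2 - α)⁶ / 768) log T`.
(4) For all `κ, ε > 0` and large `T`, all real `α, β` with `1 ≤ |α - β| ≤ 2 - κ`: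
`F(α)² + F(β)² ≤ (2 - (2 - |α - β|)⁶ / 768 + ε) log² T`. -/
theorem result (hRH : RiemannHypothesis) :
    (∀ T : ℝ, 10 ≤ T →
      (∀ α : ℝ, (F T α).im = 0 ∧ 0 ≤ (F T α).re) ∧
      (∀ α β : ℝ, Real.exp (-(2 * |β - α| * Real.log T)) * (F T α).re ≤ (F T β).re) ∧
      ∀ (n : ℕ) (y α : Fin n → ℝ), (∑ i, y i * (F T (α i)).re) ^ 2 ≤
        (F T 0).re * ∑ i, ∑ j, y i * y j * (F T (α i - α j)).re) ∧
    (∀ κ ε : ℝ, 0 < κ → 0 < ε → ∃ s T₀ : ℝ, 0 < s ∧ ∀ T : ℝ, T₀ ≤ T → ∀ C : Finset ℝ,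
      Spread κ C → ∑ c ∈ C, (∫ α in (c - s)..(c + s), (F T α).re) ^ 2 ≤ 1 + ε ∧
        ∑ c ∈ C, (F T c).re ^ 2 ≤ (1 + ε) * (Real.log T) ^ 2) ∧
    (∀ κ : ℝ, 0 < κ → ∃ s T₀ : ℝ, 0 < s ∧ ∀ T : ℝ, T₀ ≤ T → ∀ α : ℝ, 1 ≤ α → α ≤ 2 - κ →
      ∫ β in (α - s)..(α + s), (F T β).re ≤ 1 - (2 - α) ^ 6 / 640 ∧
      (F T α).re ≤ (1 - (2 - α) ^ 6 / 768) * Real.log T) ∧
    (∀ κ ε : ℝ, 0 < κ → 0 < ε → ∃ T₀ : ℝ, ∀ T : ℝ, T₀ ≤ T → ∀ α β : ℝ, 1 ≤ |α - β| →
      |α - β| ≤ 2 - κ → (F T α).re ^ 2 + (F T β).re ^ 2 ≤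
        (2 - (2 - |α - β|) ^ 6 / 768 + ε) * (Real.log T) ^ 2) := by
  refine ⟨fun T hT => ⟨fun α => ?_, fun α β => ?_, fun n y α => ?_⟩, fun κ ε hκ hε => ?_,
    fun κ hκ => ?_, fun κ ε hκ hε => ?_⟩
  · rw [F_eq hT, Complex.ofReal_im, Complex.ofReal_re]
    exact ⟨rfl, Pool.Agent.Y749.Rig.Fr_nonneg hT α⟩
  · have h := harnack hT α β
    rw [re_eq hT, re_eq hT]
    rwa [show 2 * Real.log T * |β - α| = 2 * |β - α| * Real.log T by ring] at h
  · have h := Fr_sel T (Finset.univ : Finset (Fin n)) y α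
    simp_rw [re_eq hT]
    exact h
  · obtain ⟨s, hs, h1⟩ := bessel hRH hκ hε
    obtain ⟨T₀, hT₀⟩ := (h1.and ((bessel_val hRH hκ hε).and
      (eventually_ge_atTop 10))).exists_forall_of_atTop
    refine ⟨s, T₀, hs, fun T hT C hC => ?_⟩
    obtain ⟨g1, g2, g3⟩ := hT₀ T hT
    simp_rw [re_eq g3]
    exact ⟨g1 C hC, g2 C hC⟩
  · obtain ⟨s, hs, h1⟩ := mass_expl hRH hκ
    obtain ⟨T₀, hT₀⟩ := (h1.and ((val_expl hRH hκ).and
      (eventually_ge_atTop 10))).exists_forall_of_atTop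
    refine ⟨s, T₀, hs, fun T hT α h2 h3 => ?_⟩
    obtain ⟨g1, g2, g3⟩ := hT₀ T hT
    simp_rw [re_eq g3]
    have e1 := g1 α h2 h3
    have e2 := g2 α h2 h3
    rw [show 1 - (2 - α) ^ 6 / 640 = 1 - (1 - α / 2) ^ 6 / 10 by ring,
      show 1 - (2 - α) ^ 6 / 768 = 1 - (1 - α / 2) ^ 6 / 12 by ring]
    exact ⟨e1, e2⟩
  · obtain ⟨T₀, hT₀⟩ := ((two_freq hRH hκ hε).and
      (eventually_ge_atTop 10)).exists_forall_of_atTop
    refine ⟨T₀, fun T hT α β h2 h3 => ?_⟩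
    obtain ⟨g1, g3⟩ := hT₀ T hT
    simp_rw [re_eq g3]
    rw [show 2 - (2 - |α - β|) ^ 6 / 768 + ε = 2 - (1 - |α - β| / 2) ^ 6 / 12 + ε by ring]
    exact g1 α β h2 h3

end Pool.Agent.Results.MP_00e05b_nt.LargeValuesBessel
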