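import Pool.Agent.U252.PC.Low6

/-!
# The two halves of the strong pair correlation conjecture control each other in the mean

Assume RH, and let `m(α) = min(α, 1)`. The strong pair correlation conjecture says that
`F(α, T) = 1 + o(1)` on `[1, A]`; on `[κ, 1]` one has `F(α, T) = α + o(1)` (Montgomery). It is proved
that the integrals of the positive part and of the negative part of `F - m` control each other: the
negative part on `[κ, b]` is bounded by the positive part on `[κ, R]`, up to `1 / (6 R)` and a factor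
`1 / (1 - b / R)`, and conversely the positive part on `[κ, b]` by the negative part on `[κ, R]` and the
number of close pairs of zeros. So the lower half of the conjecture together with a weak form of the
repulsion of the zeros (for arbitrarily small `β` there are at most `(1 + o(β)) (T / 2π) log T` pairs of
ordinates at a distance of at most `2πβ / log T`, including the pairs `γ = γ'`) is equivalent to the
upper half, and to the asymptotic formula, all in the mean of order one. Moreover the lower half for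
the means of `F` and the repulsion are together equivalent to the pair correlation conjecture.

Proof. The function `sinc² (π β α)` is nonnegative and its Fourier transform is a tent supported in
`[-β, β]`. So the pairing of `F` with it is at most `1 / β` times the number of the pairs at distance at
most `β` mean spacings, while by Montgomery's theorem on `(-1, 1)` it is at least
`1 / β - O(1 / (β² R))` plus the weighted excess of `F`. For the other direction one uses a tent
supported in `[-R, R]`, whose Fourier transform is nonnegative; its pairing with `F` is bounded from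
below by the diagonal.
-/

set_option autoImplicit false

open MeasureTheory Set Filter Topology
open Complex (I)

namespace Pool.Agent.Results.MP_00e05b_nt.LowerHalfRepulsion

/-- the nontrivial zeros of `ζ` with ordinate in `(0, T]` -/
def zeros (T : ℝ) : Set ℂ :=
  {s : ℂ | 0 < s.re ∧ s.re < 1 ∧ 0 < s.im ∧ s.im ≤ T ∧ riemannZeta s = 0}

/-- the multiplicity of `s` as a zero of `ζ` -/
noncomputable def mult (s : ℂ) : ℕ := analyticOrderNatAt riemannZeta s

/-- `N(T; α, β)`: the number of ordered pairs `(γ, γ')` of ordinates in `(0, T]`, counted with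
multiplicity, with `2πα / log T ≤ γ - γ' ≤ 2πβ / log T` -/
noncomputable def N (T α β : ℝ) : ℕ :=
  ∑ᶠ s ∈ zeros T, ∑ᶠ s' ∈ {s' : ℂ | s' ∈ zeros T ∧
    2 * Real.pi * α / Real.log T ≤ s.im - s'.im ∧ s.im - s'.im ≤ 2 * Real.pi * β / Real.log T},
      mult s * mult s'

/-- the constant `∫_α^β (1 - (sin πu / πu)²) du + δ(α, β)` of the pair correlation conjecture -/
noncomputable def P (α β : ℝ) : ℝ :=
  (∫ u in α..β, (1 - (Real.sin (Real.pi * u) / (Real.pi * u)) ^ 2)) +
    if α ≤ 0 ∧ 0 ≤ β then 1 else 0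

/-- `(T / 2π) log T` -/
noncomputable def X (T : ℝ) : ℝ := T / (2 * Real.pi) * Real.log T

/-- the pair correlation conjecture, for `T → ∞` along the filter `l` -/
def Montgomery (l : Filter ℝ) : Prop := ∀ α β : ℝ, α < β →
  Asymptotics.IsEquivalent l (fun T => (N T α β : ℝ)) (fun T => P α β * X T)

/-- Montgomery's function `F(α) = F(α, T)` -/
noncomputable def F (T α : ℝ) : ℂ :=
  (X T : ℂ)⁻¹ * ∑ᶠ s ∈ zeros T, ∑ᶠ s' ∈ zeros T, (mult s : ℂ) * (mult s' : ℂ) *
    ((T : ℂ) ^ (I * α * (s.im - s'.im)) * (4 / (4 + (s.im - s'.im) ^ 2)))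

/-- the lower half of the asymptotic formula in the mean, on `[1, R]`: for all `1 ≤ a < b ≤ R`,
`liminf ∫_a^b F(α) dα ≥ b - a` along `l` -/
def Lower (l : Filter ℝ) (R : ℝ) : Prop := ∀ a b : ℝ, 1 ≤ a → a < b → b ≤ R →
  ∀ ε : ℝ, 0 < ε → ∀ᶠ T in l, b - a - ε ≤ ∫ α in a..b, (F T α).re

/-- `limsup ∫_κ^A (F(α) - min(α, 1))⁺ dα ≤ x` along `l` -/
def PosLe (l : Filter ℝ) (κ A x : ℝ) : Prop := ∀ ε : ℝ, 0 < ε → ∀ᶠ T in l,
  ∫ α in κ..A, max 0 ((F T α).re - min α 1) ≤ x + ε

/-- `limsup ∫_κ^A (min(α, 1) - F(α))⁺ dα ≤ x` along `l` (for `κ = 1` this holds if, for every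
`ε > 0`, the measure of the `α ∈ [1, A]` with `F(α) < 1 - ε` is at most `x + o(1)`) -/
def NegLe (l : Filter ℝ) (κ A x : ℝ) : Prop := ∀ ε : ℝ, 0 < ε → ∀ᶠ T in l,
  ∫ α in κ..A, max 0 (min α 1 - (F T α).re) ≤ x + ε

/-- `F(α) → min(α, 1)` in `L¹[κ, A]` along `l`, for every `A` -/
def L1 (l : Filter ℝ) (κ : ℝ) : Prop := ∀ A : ℝ, κ ≤ A →
  Tendsto (fun T => ∫ α in κ..A, ‖F T α - (min α 1 : ℝ)‖) l (𝓝 0)

/-- along `l`, at most `(1 + p + o(1)) (T / 2π) log T` pairs of ordinates in `(0, T]` (including the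
pairs `γ = γ'`) are at a distance of at most `2πβ / log T` -/
def Pairs (l : Filter ℝ) (β p : ℝ) : Prop := ∀ ε : ℝ, 0 < ε →
  ∀ᶠ T in l, (N T (-β) β : ℝ) ≤ (1 + p + ε) * X T

/-- a weak form of the repulsion of zeros: for all `ε > 0` there is `β ∈ (0, ε)` such that at most
`(1 + εβ) (T / 2π) log T` pairs are at a distance of at most `2πβ / log T`, for large `T` in `l` -/
def Repulsion (l : Filter ℝ) : Prop := ∀ ε : ℝ, 0 < ε → ∃ β : ℝ, 0 < β ∧ β < ε ∧
  ∀ᶠ T in l, (N T (-β) β : ℝ) ≤ (1 + ε * β) * X T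

open Pool.Agent.Y749.Rig (Fr Mp mn)
open Pool.Agent.U252.PC (MeanLow)

lemma F_eq {T : ℝ} (hT : 10 ≤ T) (α : ℝ) : F T α = (Fr T α : ℂ) :=
  Pool.Agent.Y749.Rig.P.F_eq hT α

lemma re_eq {T : ℝ} (hT : 10 ≤ T) (α : ℝ) : (F T α).re = Fr T α := by
  rw [F_eq hT, Complex.ofReal_re]

lemma N_Mp {T : ℝ} (hT : 10 ≤ T) (β : ℝ) :
    (N T (-β) β : ℝ) = (Mp T).real (Icc (-β) β) * X T := by
  have h1 : (N T (-β) β : ℝ) = Pool.Agent.Y744.PC T (Icc (-β) β) :=
    Pool.Agent.Y744.G.N_eq (by linarith) (-β) β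
  have h2 : X T = Pool.Agent.Y744.Xf T := Pool.Agent.Y744.G.X_eq T
  have h3 := Pool.Agent.Y749.Rig.Mp_PC hT (measurableSet_Icc (a := -β) (b := β))
  have h4 : 0 < Pool.Agent.Y744.Xf T := Pool.Agent.Y744.Xf_pos (by linarith)
  rw [h1, h2, h3]
  field_simp

lemma X_pos {T : ℝ} (hT : 10 ≤ T) : 0 < X T := by
  have h2 : X T = Pool.Agent.Y744.Xf T := Pool.Agent.Y744.G.X_eq T
  rw [h2]
  exact Pool.Agent.Y744.Xf_pos (by linarith)

lemma N_le_iff {T : ℝ} (hT : 10 ≤ T) (β c : ℝ) :
    (N T (-β) β : ℝ) ≤ c * X T ↔ (Mp T).real (Icc (-β) β) ≤ c := by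
  rw [N_Mp hT]
  exact mul_le_mul_iff_left₀ (X_pos hT)

variable {l : Filter ℝ}

lemma lower_iff (hl : l ≤ atTop) (R : ℝ) : Lower l R ↔ MeanLow l 1 R := by
  unfold Lower MeanLow
  refine forall_congr' fun a => forall_congr' fun b => forall_congr' fun ha =>
    forall_congr' fun hab => forall_congr' fun _ => forall_congr' fun ε => forall_congr' fun _ => ?_
  rw [Pool.Agent.U252.PC.mn_int_one ha hab.le]
  have e : ∀ T : ℝ, 10 ≤ T → ∫ α in a..b, (F T α).re = ∫ α in a..b, Fr T α := by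
    intro T hT
    refine intervalIntegral.integral_congr fun α _ => ?_
    exact re_eq hT α
  constructor
  · intro h
    filter_upwards [h, hl (eventually_ge_atTop 10)] with T h1 h2
    rwa [e T h2] at h1
  · intro h
    filter_upwards [h, hl (eventually_ge_atTop 10)] with T h1 h2
    rwa [e T h2]

lemma rep_iff (hl : l ≤ atTop) : Repulsion l ↔ Pool.Agent.U252.PC.Rep l := by
  unfold Repulsion Pool.Agent.U252.PC.Rep
  refine forall_congr' fun ε => forall_congr' fun _ => exists_congr fun β =>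
    and_congr_right fun _ => and_congr_right fun _ => ?_
  constructor
  · intro h
    filter_upwards [h, hl (eventually_ge_atTop 10)] with T h1 h2
    rwa [N_le_iff h2] at h1
  · intro h
    filter_upwards [h, hl (eventually_ge_atTop 10)] with T h1 h2
    rwa [N_le_iff h2]

lemma mn_min {α : ℝ} (hα : 0 < α) : mn α = min α 1 := by
  unfold mn
  rw [abs_of_pos hα]

lemma pos_iff (hl : l ≤ atTop) {κ A : ℝ} (hκ : 0 < κ) (hA : κ ≤ A) (x : ℝ) :
    PosLe l κ A x ↔ Pool.Agent.U252.PC.PosLe l κ A x := by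
  unfold PosLe Pool.Agent.U252.PC.PosLe
  refine forall_congr' fun ε => forall_congr' fun _ => ?_
  have e : ∀ T : ℝ, 10 ≤ T → ∫ α in κ..A, max 0 ((F T α).re - min α 1) =
      ∫ α in κ..A, max 0 (Fr T α - mn α) := by
    intro T hT
    refine intervalIntegral.integral_congr fun α hα => ?_
    rw [uIcc_of_le hA] at hα
    show max 0 ((F T α).re - min α 1) = max 0 (Fr T α - mn α)
    rw [re_eq hT, mn_min (by linarith [hα.1])]
  constructor
  · intro h
    filter_upwards [h, hl (eventually_ge_atTop 10)] with T h1 h2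
    rwa [e T h2] at h1
  · intro h
    filter_upwards [h, hl (eventually_ge_atTop 10)] with T h1 h2
    rwa [e T h2]

lemma neg_iff (hl : l ≤ atTop) {κ A : ℝ} (hκ : 0 < κ) (hA : κ ≤ A) (x : ℝ) :
    NegLe l κ A x ↔ Pool.Agent.U252.PC.NegLe l κ A x := by
  unfold NegLe Pool.Agent.U252.PC.NegLe
  refine forall_congr' fun ε => forall_congr' fun _ => ?_
  have e : ∀ T : ℝ, 10 ≤ T → ∫ α in κ..A, max 0 (min α 1 - (F T α).re) =
      ∫ α in κ..A, max 0 (mn α - Fr T α) := by
    intro T hT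
    refine intervalIntegral.integral_congr fun α hα => ?_
    rw [uIcc_of_le hA] at hα
    show max 0 (min α 1 - (F T α).re) = max 0 (mn α - Fr T α)
    rw [re_eq hT, mn_min (by linarith [hα.1])]
  constructor
  · intro h
    filter_upwards [h, hl (eventually_ge_atTop 10)] with T h1 h2
    rwa [e T h2] at h1
  · intro h
    filter_upwards [h, hl (eventually_ge_atTop 10)] with T h1 h2
    rwa [e T h2]

lemma l1_eq {T κ A : ℝ} (hT : 10 ≤ T) (hκ : 0 < κ) (hA : κ ≤ A) :
    ∫ α in κ..A, ‖F T α - (min α 1 : ℝ)‖ = (∫ α in κ..A, max 0 (Fr T α - mn α)) +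
      ∫ α in κ..A, max 0 (mn α - Fr T α) := by
  rw [← Pool.Agent.U252.PC.int_abs]
  refine intervalIntegral.integral_congr fun α hα => ?_
  rw [uIcc_of_le hA] at hα
  show ‖F T α - (min α 1 : ℝ)‖ = |Fr T α - mn α|
  rw [F_eq hT, ← Complex.ofReal_sub, Complex.norm_real, Real.norm_eq_abs,
    mn_min (by linarith [hα.1])]

lemma l1_iff (hl : l ≤ atTop) {κ : ℝ} (hκ : 0 < κ) :
    L1 l κ ↔ Pool.Agent.U252.PC.PosZero l κ ∧ Pool.Agent.U252.PC.NegZero l κ := by
  have hp : ∀ T A : ℝ, κ ≤ A → 0 ≤ ∫ α in κ..A, max 0 (Fr T α - mn α) := fun T A hA =>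
    intervalIntegral.integral_nonneg hA fun α _ => le_max_left _ _
  have hn : ∀ T A : ℝ, κ ≤ A → 0 ≤ ∫ α in κ..A, max 0 (mn α - Fr T α) := fun T A hA =>
    intervalIntegral.integral_nonneg hA fun α _ => le_max_left _ _
  constructor
  · intro h
    constructor
    · intro A hA ε hε
      filter_upwards [(h A hA).eventually (gt_mem_nhds hε), hl (eventually_ge_atTop 10)]
        with T h1 h2
      rw [l1_eq h2 hκ hA] at h1
      have := hn T A hA
      linarith
    · intro A hA ε hε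
      filter_upwards [(h A hA).eventually (gt_mem_nhds hε), hl (eventually_ge_atTop 10)]
        with T h1 h2
      rw [l1_eq h2 hκ hA] at h1
      have := hp T A hA
      linarith
  · rintro ⟨h1, h2⟩ A hA
    rw [tendsto_order]
    constructor
    · intro c hc
      filter_upwards [hl (eventually_ge_atTop 10)] with T hT
      rw [l1_eq hT hκ hA]
      have := hn T A hA
      have := hp T A hA
      linarith
    · intro c hc
      filter_upwards [h1 A hA (c / 4) (by positivity), h2 A hA (c / 4) (by positivity),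
        hl (eventually_ge_atTop 10)] with T h3 h4 hT
      rw [l1_eq hT hκ hA]
      linarith

/-- **The two halves of the strong pair correlation conjecture.** Assume RH, and let `T → ∞` along any
filter `l` (for instance along any sequence). Let `0 < κ ≤ 1`, `m(α) = min(α, 1)`.

(1) The negative part of `F - m` is controlled by the positive part: if `κ < 1` and
`limsup ∫_κ^R (F - m)⁺ ≤ x`, then `limsup ∫_κ^b (m - F)⁺ ≤ (x + 1 / (6 R)) / (1 - b / R)`.

(2) The positive part is controlled by the negative part and the number of close pairs: if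
`limsup ∫_κ^R (m - F)⁺ ≤ x`, `N(T; -β, β) ≤ (1 + p + o(1)) (T / 2π) log T` and `β b < 1`, then
`limsup ∫_κ^b (F - m)⁺ ≤ (x + p / (2 β) + 1 / (π² β² R)) (π β b / sin (π β b))²`.

(3) So a bound `x ≥ 0` for the positive parts on all intervals `[κ, A]` is also a bound for the
negative parts (`κ < 1`), and conversely if the zeros repel each other.

(4) For `κ < 1` the following are equivalent: `F → m` in `L¹[κ, A]` for every `A`; the positive part
of `F - m` tends to zero in `L¹[κ, A]` for every `A`; the negative part does, and the zeros repel each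
other. The last condition implies the first also for `κ = 1`.

(5) The pair correlation conjecture holds along `l` if and only if the means of `F` over all compact
intervals of `[1, ∞)` are, in the limit, at least the conjectured ones, and the zeros repel each
other. -/
theorem result (hRH : RiemannHypothesis) (l : Filter ℝ) (hl : l ≤ atTop) :
    (∀ κ R b x : ℝ, 0 < κ → κ < 1 → 1 ≤ R → κ ≤ b → b < R → PosLe l κ R x →
      NegLe l κ b ((x + 1 / (6 * R)) / (1 - b / R))) ∧
    (∀ κ R b β p x : ℝ, 0 < κ → κ ≤ 1 → κ ≤ b → b ≤ R → 0 < β → β * b < 1 → Pairs l β p →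
      NegLe l κ R x → PosLe l κ b ((x + p / (2 * β) + 1 / (Real.pi ^ 2 * β ^ 2 * R)) *
        (Real.pi * β * b / Real.sin (Real.pi * β * b)) ^ 2)) ∧
    (∀ κ x : ℝ, 0 < κ → 0 ≤ x →
      (κ < 1 → (∀ A : ℝ, κ ≤ A → PosLe l κ A x) → ∀ A : ℝ, κ ≤ A → NegLe l κ A x) ∧
      (κ ≤ 1 → Repulsion l → (∀ A : ℝ, κ ≤ A → NegLe l κ A x) →
        ∀ A : ℝ, κ ≤ A → PosLe l κ A x)) ∧
    ((∀ κ : ℝ, 0 < κ → κ < 1 → [L1 l κ, ∀ A : ℝ, κ ≤ A → PosLe l κ A 0,
      (∀ A : ℝ, κ ≤ A → NegLe l κ A 0) ∧ Repulsion l].TFAE) ∧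
      ((∀ A : ℝ, 1 ≤ A → NegLe l 1 A 0) → Repulsion l → L1 l 1)) ∧
    (Montgomery l ↔ (∀ R : ℝ, Lower l R) ∧ Repulsion l) := by
  have hPZ : ∀ κ : ℝ, 0 < κ → ((∀ A : ℝ, κ ≤ A → PosLe l κ A 0) ↔
      Pool.Agent.U252.PC.PosZero l κ) := fun κ hκ =>
    forall_congr' fun A => forall_congr' fun hA => pos_iff hl hκ hA 0
  have hNZ : ∀ κ : ℝ, 0 < κ → ((∀ A : ℝ, κ ≤ A → NegLe l κ A 0) ↔
      Pool.Agent.U252.PC.NegZero l κ) := fun κ hκ =>
    forall_congr' fun A => forall_congr' fun hA => neg_iff hl hκ hA 0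
  refine ⟨?_, ?_, ?_, ⟨?_, ?_⟩, ⟨fun h => ?_, fun h => ?_⟩⟩
  · intro κ R b x hκ0 hκ1 hR hb hbR h
    rw [neg_iff hl hκ0 hb]
    intro ε hε
    exact Pool.Agent.U252.PC.quant_neg hRH hl hκ0 hκ1 hR ((pos_iff hl hκ0 (hb.trans hbR.le) x).1 h)
      hb hbR hε
  · intro κ R b β p x hκ0 hκ1 hb hbR hβ hβb hp h
    have hb0 : 0 < b := hκ0.trans_le hb
    have hpi := Real.pi_pos
    rw [pos_iff hl hκ0 hb]
    intro ε hε
    have h1 := Pool.Agent.U252.PC.quant_l1 hRH hl hκ0 hκ1
      ((neg_iff hl hκ0 (hb.trans hbR) x).1 h) (p := p) hβ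
      (fun ε' hε' => by
        filter_upwards [hp ε' hε', hl (eventually_ge_atTop 10)] with T h1 h2
        rwa [N_le_iff h2] at h1) hb hbR hβb hε
    have e2 : (x + p / (2 * β) + 1 / (Real.pi ^ 2 * β ^ 2 * R)) /
        Pool.Agent.Y749.Rig.fl (Pool.Agent.Y749.Rig.tr β) b =
        (x + p / (2 * β) + 1 / (Real.pi ^ 2 * β ^ 2 * R)) *
          (Real.pi * β * b / Real.sin (Real.pi * β * b)) ^ 2 := by
      rw [Pool.Agent.U252.PC.ps_eq hβ, Real.sinc_of_ne_zero (by positivity), div_eq_mul_inv,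
        ← inv_pow, inv_div]
    rw [← e2]
    exact h1
  · intro κ x hκ0 hx
    constructor
    · intro hκ1 h A hA
      rw [neg_iff hl hκ0 hA]
      exact Pool.Agent.U252.PC.neg_le_pos hRH hl hκ0 hκ1 hx
        (fun A' hA' => (pos_iff hl hκ0 hA' x).1 (h A' hA')) hA
    · intro hκ1 hrep h A hA
      rw [pos_iff hl hκ0 hA]
      exact fun ε hε => Pool.Agent.U252.PC.pos_le_neg hRH hl hκ0 hκ1 hx
        (fun A' hA' => (neg_iff hl hκ0 hA' x).1 (h A' hA')) ((rep_iff hl).1 hrep) hA hε
  · intro κ hκ0 hκ1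
    tfae_have 1 → 2 := by
      intro h
      exact (hPZ κ hκ0).2 ((l1_iff hl hκ0).1 h).1
    tfae_have 2 → 3 := by
      intro h
      obtain ⟨h1, h2⟩ := Pool.Agent.U252.PC.neg_zero_of hRH hl hκ0 hκ1 ((hPZ κ hκ0).1 h)
      exact ⟨(hNZ κ hκ0).2 h1, (rep_iff hl).2 h2⟩
    tfae_have 3 → 1 := by
      rintro ⟨h1, h2⟩
      have h3 := (hNZ κ hκ0).1 h1
      exact (l1_iff hl hκ0).2 ⟨Pool.Agent.U252.PC.pos_zero_of hRH hl hκ0 hκ1.le h3
        ((rep_iff hl).1 h2), h3⟩
    tfae_finish
  · intro h1 h2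
    have h3 := (hNZ 1 one_pos).1 h1
    exact (l1_iff hl one_pos).2 ⟨Pool.Agent.U252.PC.pos_zero_of hRH hl one_pos le_rfl h3
      ((rep_iff hl).1 h2), h3⟩
  · have h1 := (Pool.Agent.Y744.G.Mont_iff hl).1 h
    obtain ⟨h2, h3⟩ := Pool.Agent.U252.PC.low_of_lim hRH hl fun α β hαβ => h1 α β hαβ
    refine ⟨fun R => (lower_iff hl R).2 ?_, (rep_iff hl).2 h3⟩
    intro a b ha hab _ ε hε
    exact (h2 a b (by linarith) hab).eventually (le_mem_nhds (by linarith))
  · exact (Pool.Agent.Y744.G.Mont_iff hl).2 fun α β hαβ =>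
      Pool.Agent.U252.PC.lim_of_up hRH hl (Pool.Agent.U252.PC.up_of_low hRH hl
        (fun R => (lower_iff hl R).1 (h.1 R)) ((rep_iff hl).1 h.2)) α β hαβ

end Pool.Agent.Results.MP_00e05b_nt.LowerHalfRepulsion
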