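import Pool.Agent.U85.Ml.Rk

set_option autoImplicit false

/-!
# The number variance of the zeros in almost every single window of bounded length

The Riemann hypothesis is assumed (as in the question). For `t ∈ [T, 2T]` and a constant `H` let `zeros t (H/log T)` be the
set of the nontrivial zeros `ρ` of zeta with `|γ - t| ≤ H/log T`, a window which contains `H/π` zeros in the mean, and let
`x_ρ = γ log T/(2π)` be the ordinates in the scale of the mean spacing. Let

`pairSum(h) = (π/H) ∑_{ρ,ρ'} m_ρ m_ρ' (h - |x_ρ - x_ρ'|)_+ = (π/H) ∫ N(s, h)² ds`,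

where `N(s, h)` is the number of the zeros of the window with `|x_ρ - s| ≤ h/2`. Since `N(s, h)` has the mean `h`, the
difference `pairSum(h) - h²` is the variance of the number of zeros in intervals of length `h` INSIDE THIS ONE WINDOW. Random
matrix theory predicts `(1/π²) log h + O(1)` (for independent points it would be `h`).

We prove that this holds in almost every single window, for all `h` at once: for every `h₁` and `ε > 0`, all `H ≥ H₀(h₁, ε)`
and all large `T`, all `t ∈ [T, 2T]` outside a set of measure at most `εT` satisfy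

`|pairSum(h) - h² - (1/π²) log h| ≤ 6` for all `1 ≤ h ≤ h₁`, and

`|pairCount(h) - 2h| ≤ 14` for all `2 ≤ h ≤ h₁`, where `pairCount(h) = (π/H) #{(ρ, ρ') : |x_ρ - x_ρ'| ≤ h}` (with
multiplicity),

with absolute constants; and the exceptional set is also small with respect to `|B(t)|² dt` for EVERY Dirichlet polynomial
`B` of length at most `T^θ`, `θ = θ(h₁, ε, H) > 0`.

Idea: `pairSum(h)` is the integral of the form factor of the window against `(sin(πhα)/(πα))²` over the whole real line. The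
frequencies `|α| < 0.49` give the main term by the law of large numbers for the form factor, and the form factor at all other
frequencies is bounded in the mean by positivity (`Pool.Agent.U85.Ml.freq_all`), which gives `O(1)`.
-/

namespace Pool.Agent.Results.MP_00e05b_nt.RigidityInAlmostEveryWindow

open MeasureTheory

noncomputable section

/-- the Dirichlet polynomial with the coefficients `b_1, ..., b_N` on the critical line -/
def B (N : ℕ) (b : ℕ → ℂ) (t : ℝ) : ℂ := ∑ n ∈ Finset.Icc 1 N, b n * (n : ℂ) ^ (-(1 / 2 + t * Complex.I))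

/-- the mass of the polynomial on a set of heights -/
def mass (N : ℕ) (b : ℕ → ℂ) (E : Set ℝ) : ℝ := ∫ t in E, ‖B N b t‖ ^ 2

/-- the nontrivial zeros of zeta with `|γ - t| ≤ r` -/
def zeros (t r : ℝ) : Set ℂ := {s : ℂ | riemannZeta s = 0 ∧ 0 < s.re ∧ s.re < 1 ∧ |s.im - t| ≤ r}

/-- the multiplicity of a zero -/
def m (s : ℂ) : ℝ := analyticOrderNatAt riemannZeta s

/-- the distance of two ordinates in the scale of the mean spacing -/
def dist' (T : ℝ) (p : ℂ × ℂ) : ℝ := Real.log T / (2 * Real.pi) * |p.1.im - p.2.im|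

/-- the sum of `(h - distance)_+` over the pairs of zeros of the window, divided by `H/π` -/
def pairSum (T H h t : ℝ) : ℝ :=
  (∑ᶠ p ∈ zeros t (H / Real.log T) ×ˢ zeros t (H / Real.log T), m p.1 * m p.2 * max (h - dist' T p) 0) / (H / Real.pi)

open Classical in
/-- the number of the pairs of zeros of the window at distance at most `h` mean spacings, divided by `H/π` -/
def pairCount (T H h t : ℝ) : ℝ :=
  (∑ᶠ p ∈ zeros t (H / Real.log T) ×ˢ zeros t (H / Real.log T), m p.1 * m p.2 * (if dist' T p ≤ h then 1 else 0)) /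
    (H / Real.pi)

/-- the points of `[T, 2T]` at which the law fails for some `h` -/
def bad (T H h₁ : ℝ) : Set ℝ :=
  {t : ℝ | t ∈ Set.Icc T (2 * T) ∧ ∃ h : ℝ, 1 ≤ h ∧ h ≤ h₁ ∧
    (6 < |pairSum T H h t - (h ^ 2 + Real.log h / Real.pi ^ 2)| ∨ (2 ≤ h ∧ 14 < |pairCount T H h t - 2 * h|))}

/-- **The number variance in almost every window of bounded length.** -/
theorem result (hRH : RiemannHypothesis) (h₁ ε : ℝ) (hε : 0 < ε) :
    ∃ H₀ : ℝ, 1 ≤ H₀ ∧ ∀ H : ℝ, H₀ ≤ H → ∃ θ T₀ : ℝ, 0 < θ ∧ 1 ≤ T₀ ∧ ∀ T : ℝ, T₀ ≤ T →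
      volume.real (bad T H h₁) ≤ ε * T ∧
      ∀ N : ℕ, (N : ℝ) ≤ T ^ θ → ∀ b : ℕ → ℂ,
        mass N b (bad T H h₁) ≤ ε * mass N b (Set.Icc T (2 * T)) := by
  obtain ⟨H₀, hH₀, h⟩ := Pool.Agent.U85.Ml.rigid_all hRH h₁ ε hε
  refine ⟨H₀, hH₀, fun H hH => ?_⟩
  obtain ⟨θ, T₀, hθ, hT₀, h⟩ := h H hH
  have key : ∀ T : ℝ, T₀ ≤ T → ∀ N : ℕ, (N : ℝ) ≤ T ^ θ → ∀ b : ℕ → ℂ,
      mass N b (bad T H h₁) ≤ ε * mass N b (Set.Icc T (2 * T)) := by
    intro T hT N hN b
    obtain ⟨G, -, hGs, hGi, hG⟩ := h T hT N hN b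
    refine le_trans ?_ hGi
    have hVc : Continuous (fun t : ℝ => ‖B N b t‖ ^ 2) := ((Pool.Agent.U85.Zd.dp_cont N b).norm).pow 2
    refine setIntegral_mono_set (hVc.continuousOn.integrableOn_Icc.mono_set hGs)
      (Filter.Eventually.of_forall fun t => by positivity) (LE.le.eventuallyLE ?_)
    rintro t ⟨ht, x, hx1, hx2, hbad⟩
    by_contra htG
    obtain ⟨h1, h2⟩ := hG t ht htG x hx1 hx2
    rcases hbad with hb | ⟨hb1, hb2⟩
    · exact absurd hb (not_lt.2 h1)
    · exact absurd hb2 (not_lt.2 (h2 hb1))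
  refine ⟨θ, T₀, hθ, hT₀, fun T hT => ⟨?_, fun N hN b => key T hT N hN b⟩⟩
  have hT1 : 1 ≤ T := hT₀.trans hT
  have h1 := key T hT 1 (by push_cast; exact Real.one_le_rpow hT1 hθ.le) (fun _ => 1)
  have h2 : ∀ t : ℝ, B 1 (fun _ => 1) t = 1 := Pool.Agent.U85.Zd.dp_one
  unfold mass at h1
  simp only [h2, norm_one, one_pow, integral_const, smul_eq_mul, mul_one,
    measureReal_restrict_apply_univ] at h1
  rw [Real.volume_real_Icc_of_le (by linarith), show 2 * T - T = T by ring] at h1
  exact h1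

end

end Pool.Agent.Results.MP_00e05b_nt.RigidityInAlmostEveryWindow
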